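import Pool.Agent.E8helper40.AA.AlmostAll

/-!
# Almost all special points of products of modular curves have equidistributed Galois orbits

Let `X = Y_1 × ⋯ × Y_n` be a product of modular curves, with its canonical model over the number
field `F`, and `x_i = (x_{i1}, …, x_{in})` a sequence of special points of `X` such that for each `j`
the discriminants of the CM points `x_{ij}` tend to `-∞`. Let `C_i` be the set of all
`y = (y_1, …, y_n)` such that `y_j` is a Galois conjugate (over `F`) of `x_{ij}`; so `C_i` is a
disjoint union of Galois orbits of special points of `X`. For instance, if all `Y_j` are the modular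
curve of level one and `F = ℚ`, then `C_i` is the set of all `n`-tuples of CM points of discriminants
`D_{i1}, …, D_{in}`.

**Theorem.** There are sets `E_i` such that `|C_i ∩ E_i| / |C_i|` tends to `0` and such that the
uniform measures on the Galois orbits of the `y_i` converge weakly to the product `m_X` of the
hyperbolic measures, for all sequences `y_i ∈ C_i` with `y_i ∉ E_i` for all large `i`.

So Q1 has a positive answer for almost all special points. Nothing is assumed on the CM fields or
the discriminants of the different coordinates, which may be equal. There must be exceptional points,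
for example those in the diagonal.

The precise hypothesis on the coordinates is that the sequences `(x_{ij})` are
character-equidistributed: the averages of `f - ∫ f dm_j`, for bounded continuous `f`, over the
orbits of the Galois conjugates of `x_{ij}` under `Gal(ℚ̄ / F K_{ij})` (`K_{ij}` the CM field), twisted
by the characters of this group, tend to `0` uniformly. For CM points on modular curves whose
discriminants tend to `-∞` this is known: these averages are the Weyl sums for class group characters,
which have a power saving, by the formulas of Waldspurger and Zhang and the subconvex bounds of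
Duke-Friedlander-Iwaniec, Michel, Harcos-Michel (2006) and Michel-Venkatesh (2010).

Dictionary: `G = Gal(ℚ̄ / ℚ)`, `Γ = Gal(ℚ̄ / F)`, `W j = Y_j`, `(P j).Z` the set of CM points of `Y_j`,
`(P j).K z = Gal(ℚ̄ / K_z)` for the CM field `K_z` of `z`, and `(P j).N z = Gal(ℚ̄ / H_z)`, where `H_z`
is the class field of `K_z`, Galois over `ℚ`, which belongs to the group of ideles
`K_z^* {u ∈ Ô^* : u ≡ 1 mod N}`, `O` the order of `z`, `N` the level. By the theory of complex
multiplication the Galois group of `F H_z` fixes `z`.

The proof is by the second moment over `C_i`. The Galois group of `F K_{i1} ⋯ K_{in}` acts on the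
coordinates through abelian groups, so the mean square over `C_i` of the deviation of the average of
`∏ f_j` over the Galois orbits is at most a constant times the root mean square, over the Galois
group, of the autocorrelation `t ↦ avg_y (f_j - m_j)(y) (f_j - m_j)(t y)` for one `j`; by Parseval
the mean square of the autocorrelation is the sum of the fourth powers of the Weyl sums, which is at
most the square of their maximum. Then a compactness argument gives the weak convergence.
-/

set_option autoImplicit false

open MeasureTheory Filter Topology
open scoped BoundedContinuousFunction

namespace Pool.Agent.Results.MP_ad7a55_nt.AlmostAllPointsH40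

open Pool.Agent.E8helper40.EQ Pool.Agent.E8helper40.AA

theorem result {G : Type} [Group G] (Γ : Subgroup G) {J : Type} [Fintype J] (W : J → Type)
    [∀ j, TopologicalSpace (W j)] [∀ j, PolishSpace (W j)] [∀ j, MeasurableSpace (W j)]
    [∀ j, BorelSpace (W j)] (P : ∀ j, SpecialPoints Γ (W j))
    (m : ∀ j, ProbabilityMeasure (W j)) (x : ℕ → ∀ j, (P j).Z)
    (hquadratic : ∀ i j, ((P j).K (x i j)).index = 2)
    (hx : ∀ j, CharacterEquidistributed (P j) (fun i => x i j) (m j)) :
    ∃ E : ℕ → Set (∀ j, (P j).Z),
      Tendsto (fun i => ((conjugates P (x i) ∩ E i).ncard : ℝ) / (conjugates P (x i)).ncard)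
        atTop (𝓝 0) ∧
      ∀ y : ℕ → ∀ j, (P j).Z, (∀ i, y i ∈ conjugates P (x i)) → (∀ᶠ i in atTop, y i ∉ E i) →
        ∀ f : (∀ j, W j) →ᵇ ℝ, Tendsto (fun i => ∫ w, f w ∂(galoisMeasure P (y i))) atTop
          (𝓝 (∫ w, f w ∂(Measure.pi fun j => (m j : Measure (W j))))) :=
  almost_all P m 2 x (fun i j => by
    rw [hquadratic i j]
    exact ⟨two_ne_zero, le_rfl⟩) hx

end Pool.Agent.Results.MP_ad7a55_nt.AlmostAllPointsH40
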