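import Pool.Agent.E8helper40.EQ.Fields

/-!
# Special points with different CM fields: their Galois orbits are asymptotically independent

Let `X = Y_1 × ⋯ × Y_n` be a product of modular curves, with its canonical model over the number field
`F`, and `(x_i)` a sequence of special points of `X`. We group the coordinates by their CM fields:
passing to subsequences we may assume that the partition of `{1, …, n}` into the sets of coordinates
with the same CM field does not depend on `i`. Let `W_j` be the product of the curves of the `j`-th set
`S_j`, `j ∈ J`, so that `X = ∏ W_j` and `x_i = (x_{ij})`, where all coordinates of `x_{ij}` have CM by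
one imaginary quadratic field `K_{ij}`, and `K_{ij} ≠ K_{ij'}` for `j ≠ j'`.

**Theorem.** If for every `j` the sequence `(x_{ij})` of points of `W_j` is strongly equidistributed with
respect to the probability measure `m_j` on `W_j`, then the uniform measures on the Galois orbits `G(x_i)`
converge weakly to the product of the measures `m_j`.

Strongly equidistributed means that the uniform measures on the smaller orbits of the points
`γ x_{ij}` (`γ ∈ Γ = Gal(ℚ̄ / F)`) under the groups generated by the `2 ^ k`-th powers of the elements
of subgroups of bounded index of `Γ`, contained in `Gal(ℚ̄ / K_{ij})`, converge weakly to `m_j`, for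
each `k`, uniformly.

**Consequences.**

1. If the CM fields of the coordinates of each `x_i` are pairwise different, then the answer to Q1 is
   positive: `μ_{x_i}` converges to `m_X` as soon as, for each `j` and each CM point `c`, only finitely
   many `x_i` have the `j`-th coordinate `c` (these are special cases of the hypothesis in Q1). For here
   `W_j = Y_j`, and the strong equidistribution of a sequence of CM points with discriminants `D → ∞` on
   a modular curve is known: the groups in its definition have index at most `C 2 ^ {k ω(D)}` in the
   Galois group of the CM point (genus theory), and the Weyl sums for all class group characters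
   have a power saving, by the formulas of Waldspurger and Zhang and the subconvex bounds of
   Duke-Friedlander-Iwaniec, Michel, Harcos-Michel (2006) and Michel-Venkatesh (2010).
2. Q1 for all sequences follows from the strong form for sequences whose points have all coordinates
   with the same CM field.

Dictionary: `G = Gal(ℚ̄ / ℚ)`, `conj` a complex conjugation, `(P j).Z` the set of special points of
`W j` of which all coordinates have CM by the same field, `(P j).K z = Gal(ℚ̄ / K_z)` for the CM field
`K_z`, and `(P j).N z = Gal(ℚ̄ / H_z)`, where `H_z` is the compositum of the class fields of `K_z`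
which belong to the groups of ideles `K_z^* {u ∈ Ô^* : u ≡ 1 mod N}`, `O` running through the orders of
the coordinates of `z`, `N` the level. By the theory of complex multiplication the Galois group
of `F H_z` fixes `z`. Complex conjugation maps an idele `s` of `K_z` to `s̄`, and `s s̄` comes from an
idele of `ℚ`, which is in `ℚ^* Ẑ^*`; so the complex conjugation acts as inversion on a subgroup of
index at most `φ(N)` of `Gal(H_z / K_z)`.

The proof. If `g` is trivial on `K_{ij}` and not on `K_{ij'}`, then `t ↦ g t g⁻¹ t` kills the
`j'`-th coordinate of `t` (in a subgroup of bounded index) and squares the `j`-th coordinate. So all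
`2 ^ (|J| - 1)`-th powers of the elements of a subgroup of bounded index, in each coordinate
separately, are in the image of `Γ`, and `G(x_i)` is a disjoint union of products of small orbits.
-/

set_option autoImplicit false

open MeasureTheory Filter Topology
open scoped BoundedContinuousFunction

namespace Pool.Agent.Results.MP_ad7a55_nt.DifferentFieldsH40

open Pool.Agent.E8helper40.EQ

/-- The special points `z ∈ P` have fields of degree two, and the complex conjugation acts by
inversion, modulo `N z`, on a subgroup of index at most `C`. -/
def ImaginaryQuadratic {G : Type} [Group G] {Γ : Subgroup G} {Y : Type} (conj : G) (C : ℕ)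
    (P : SpecialPoints Γ Y) : Prop :=
  ∀ z : P.Z, (P.K z).index = 2 ∧
    ∃ T : Subgroup G, T.index ≠ 0 ∧ T.index ≤ C ∧ ∀ t ∈ T, conj * t * conj⁻¹ * t ∈ P.N z

theorem result {G : Type} [Group G] (Γ : Subgroup G) (hΓ : Γ.index ≠ 0) (conj : G) (C : ℕ)
    {J : Type} [Fintype J] (W : J → Type) [∀ j, TopologicalSpace (W j)]
    [∀ j, SecondCountableTopology (W j)] [∀ j, TopologicalSpace.PseudoMetrizableSpace (W j)]
    [∀ j, MeasurableSpace (W j)] [∀ j, BorelSpace (W j)]
    (P : ∀ j, SpecialPoints Γ (W j)) (hP : ∀ j, ImaginaryQuadratic conj C (P j))
    (m : ∀ j, ProbabilityMeasure (W j)) (x : ℕ → ∀ j, (P j).Z)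
    (hdifferent : ∀ i, Function.Injective fun j => (P j).K (x i j))
    (hstrong : ∀ j, (P j).StronglyEquidistributed (fun i => x i j) (m j))
    (f : (∀ j, W j) →ᵇ ℝ) :
    Tendsto (fun i => ∫ w, f w ∂(galoisMeasure P (x i))) atTop
      (𝓝 (∫ w, f w ∂(Measure.pi fun j => (m j : Measure (W j))))) := by
  have hP' : ∀ j, CMType conj (max C 2) (P j) := by
    intro j z
    obtain ⟨h1, T, hT0, hTC, hT⟩ := hP j z
    refine ⟨Subgroup.normal_of_index_eq_two h1, by rw [h1]; norm_num, ?_, T, hT0,
      hTC.trans (le_max_left _ _), hT⟩
    rw [h1]
    exact le_max_right _ _
  refine main hΓ P m (max C 2 * max C 2) x ?_ ?_ hstrong f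
  · intro i j
    obtain ⟨-, h0, hC, -⟩ := hP' j (x i j)
    exact ⟨h0, hC.trans (Nat.le_mul_self _)⟩
  · intro i a b hab
    refine inverts (hP' a) (hP' b) (x i a) (x i b) ?_
    rw [sup_eq_top (hP a _).1 (hP b _).1 (fun h => hab (hdifferent i h))]
    trivial

end Pool.Agent.Results.MP_ad7a55_nt.DifferentFieldsH40
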