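import Pool.Agent.E8helper40.LG.Chain

/-!
# Special points of products of modular curves with large Galois orbits are equidistributed

Let `X = Y_0 × ⋯ × Y_n` be a product of modular curves, with its canonical model over the number
field `F`, and `x_i = (x_{i0}, …, x_{in})` a sequence of special points of `X` such that for each `j`
the discriminants `D_{ij}` of the CM points `x_{ij}` tend to `-∞`. The Galois orbit `G(x_i)` has at
most `∏_j |G(x_{ij})|` elements. We show that `μ_{x_i}` converges to `m_X` if the orbit is almost as
large as this, in the following sense.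

**Theorem.** If for some `η` the coordinates `x_{ij}`, `j > 0`, are sparsely equidistributed with
exponent `η`, and `|G(x_{i0}, …, x_{i(j-1)})| |G(x_{ij})| = o(|G(x_{i0}, …, x_{ij})| |G(x_{ij})|^η)`
for `0 < j ≤ n`, then the uniform measures on the Galois orbits of the `x_i` converge weakly to the
product `m_X` of the hyperbolic measures.

Sparsely equidistributed with exponent `η`: the orbits of the conjugates `z` of `x_{ij}` under
subgroups `B` of `Gal(ℚ̄ / F K_{ij})`, `K_{ij}` the CM field, with at least `|G(x_{ij})| ^ (1 - η)`
elements are equidistributed, uniformly in `z` and `B`. For CM points on modular curves whose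
discriminants tend to `-∞` this is known for some absolute `η > 0` (Harcos-Michel 2006,
Michel-Venkatesh 2010, Zhang 2005): it follows from the power saving in the Weyl sums for all class
group characters. For the coordinate `x_{i0}` only the equidistribution of the Galois orbits is
assumed (Duke). The coordinates can be ordered as one likes, for example such that the `|D_{ij}|`
increase with `j`.

**Consequences for Q1.** Let `H_{ij}` be the ring class field (with level structure) of the
coordinate `x_{ij}`. Up to a bounded factor, `|G(x_{i0}, …, x_{i(j-1)})| |G(x_{ij})|` is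
`|G(x_{i0}, …, x_{ij})| [H_{ij} ∩ H_{i0} ⋯ H_{i(j-1)} : ℚ]`. So there is an absolute `η > 0` such that
`μ_{x_i}` converges to `m_X` if `[H_{ij} ∩ H_{i0} ⋯ H_{i(j-1)} : ℚ] ≤ |D_{ij}| ^ η` for `0 < j ≤ n`. This
holds in the following cases.

1. The discriminants have different sizes: `|D_{i(j-1)}| ≤ |D_{ij}| ^ η'` for an absolute `η' > 0`.
   The CM fields are arbitrary.
2. The CM fields of all coordinates of `x_i` are equal to one field `K_i`, and
   `h(K_i) ∏_{l < j} gcd(f_{ij}, f_{il}) ≤ |D_{ij}| ^ η'` for the conductors `f_{ij}`: for instance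
   if `K_i` is a fixed field and the conductors of the coordinates are pairwise coprime.
3. The CM fields of the coordinates of `x_i` are pairwise different: by genus theory
   `[H_{ij} ∩ H_{i0} ⋯ H_{i(j-1)} : ℚ]` is then at most `C ^ (number of prime divisors of D_{ij})`.
   (This is the case `W_j = Y_j` of DifferentFieldsH40.)

Dictionary: `G = Gal(ℚ̄ / ℚ)`, `Γ = Gal(ℚ̄ / F)`, `W j = Y_j`, `(P j).Z` the set of CM points of `Y_j`,
`(P j).K z = Gal(ℚ̄ / K_z)` for the CM field `K_z` of `z`, `cm (P j) z` its intersection with `Γ`, and
`(P j).N z = Gal(ℚ̄ / H_z)`, where `H_z` is the class field of `K_z`, Galois over `ℚ`, which belongs to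
the group of ideles `K_z^* {u ∈ Ô^* : u ≡ 1 mod N}`, `O` the order of `z`, `N` the level.

The proof. The automorphisms which fix the coordinates `x_{i0}, …, x_{i(j-1)}` and the CM fields move
the `j`-th coordinate in an orbit with at least `|G(x_{ij})| ^ (1 - η)` elements, by the hypothesis on
the sizes; so the conditional averages of `f_j` are near to `∫ f_j dm_j`, and the coordinates can be
split off one after the other.
-/

set_option autoImplicit false

open MeasureTheory Filter Topology
open scoped BoundedContinuousFunction

namespace Pool.Agent.Results.MP_ad7a55_nt.LargeOrbitsH40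

open Pool.Agent.E8helper40.EQ Pool.Agent.E8helper40.AA Pool.Agent.E8helper40.LG

theorem result {G : Type} [Group G] (Γ : Subgroup G) (n : ℕ) (W : Fin (n + 1) → Type)
    [∀ j, TopologicalSpace (W j)] [∀ j, PolishSpace (W j)] [∀ j, MeasurableSpace (W j)]
    [∀ j, BorelSpace (W j)] (P : ∀ j, SpecialPoints Γ (W j))
    (m : ∀ j, ProbabilityMeasure (W j)) (x : ℕ → ∀ j, (P j).Z)
    (hquadratic : ∀ i j, ((P j).K (x i j)).index = 2)
    (h₀ : ∀ f : (W 0) →ᵇ ℝ,
      Tendsto (fun i => ∫ w, f w ∂(uniform (MulAction.orbit Γ (x i 0)) (P 0).pt)) atTop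
        (𝓝 (∫ w, f w ∂(m 0 : Measure (W 0))))) (η : ℝ)
    (hsparse : ∀ j, 0 < j → SparselyEquidistributed (P j) (fun i => x i j) (m j) η)
    (hlarge : ∀ j, 0 < j → Tendsto (fun i =>
      ((MulAction.orbit Γ (fun l : {l // l < j} => x i l)).ncard *
        (MulAction.orbit Γ (x i j)).ncard : ℝ) /
      ((MulAction.orbit Γ (fun l : {l // l ≤ j} => x i l)).ncard *
        ((MulAction.orbit Γ (x i j)).ncard : ℝ) ^ η)) atTop (𝓝 0)) (f : (∀ j, W j) →ᵇ ℝ) :
    Tendsto (fun i => ∫ w, f w ∂(galoisMeasure P (x i))) atTop
      (𝓝 (∫ w, f w ∂(Measure.pi fun j => (m j : Measure (W j))))) := by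
  have h1 := chain P m 2 x (fun i j => by
    rw [hquadratic i j]
    exact ⟨two_ne_zero, le_rfl⟩) η 0 (fun j => Fin.zero_le j)
    (ProbabilityMeasure.tendsto_iff_forall_integral_tendsto.2 h₀) hsparse hlarge
  have h2 := (ProbabilityMeasure.tendsto_iff_forall_integral_tendsto.1 h1) f
  rw [ProbabilityMeasure.toMeasure_pi] at h2
  exact h2

end Pool.Agent.Results.MP_ad7a55_nt.LargeOrbitsH40
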